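import Pool.Agent.Helper53.OS.Seq
import Pool.Graph.R_pool_sql_team_seeded_2aa45f1a.Q193.LT.Defs

/-!
# The algebraic Sato-Tate conjecture and one sequence of pure motives of weight one

Let `K ⊂ ℂ` be a number field and let `𝓜` be the category of André motives over `K`, a semisimple Tannakian
category. For motives `N` and `N'` let `Gen N N'` be the
statement that `N'` is in the tensor category `⟨N⟩` (subquotients of finite direct sums of the motives
`N^{⊗a} ⊗ (N^∨)^{⊗b}`), and let `Pure N` be the statement that `N` is pure and polarised. The schemes in the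
following are separated schemes of finite type over `ℚ`, also if `K` is larger.

* For a scheme `X`, a degree `n` and a twist `j`, put `H n j X = Gr^W_n H^n_c(X_K)(j)`. For smooth
  projective `X` this is `h^n(X_K)(j)`.
* Let `E` be an elliptic curve over `ℚ`. For a smooth integral scheme `U` let `W_n H^n(U_K)` be the part of
  the lowest weight in the cohomology (the image of `h^n` of a smooth compactification of `U_K`), and let

  `h U = h^1(E) ⊕ ⨁_{n odd} W_n H^n(U_K)((n - 1) / 2) ⊕ ⨁_{n even} W_n H^n(U_K)(n / 2) ⊗ h^1(E)`.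

  This is a **pure polarised motive of weight one**, and `⟨h U⟩` contains `h^1(E)`, `ℚ(1)` and all
  `W_n H^n(U_K)`.
* `Fine V` is the property that `V` is smooth and integral and that the restriction
  `W_n H^n(V(ℂ), ℚ) → W_n H^n(V'(ℂ), ℚ)` is injective for all nonempty open subschemes `V'` of `V` and all
  `n`. It does not depend on `K`. Every integral scheme `X` has a nonempty open subscheme `V` with this
  property (`HasFine`): let `V` be smooth and so small that the kernels of the maps
  `H^n(X̄(ℂ), ℚ) → H^n(V(ℂ), ℚ)` do not grow for smaller open subschemes, where `X̄` is a smooth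
  compactification of `V`.

A matroid `M` of rank three on the set `Fin 4 ⊕ Fin m` is **framed** if any three of the four elements of
`Fin 4` form a base; it is **simple** if any two elements are independent. Let `modS ℚ M` be the moduli
space over `ℚ` of the configurations of `m + 4` different points in the projective plane in which exactly
the triples prescribed by `M` are collinear, modulo projective transformations. `SmoothMod ℚ ⊤ M` says that
`M` is simple and framed, and that `modS ℚ M` is integral and smooth.

**Theorem.** There is **one sequence** of simple framed matroids `M_0, M_1, M_2, …` of rank three with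
smooth integral moduli spaces `U_i = modS ℚ M_i`, which does not depend on `K`, with the following
properties.

1. For each separated scheme `X` of finite type over `ℚ` there is `i₀`, which depends only on `X`, such that
   for all `i ≥ i₀`, for all `K`, the motives `Gr^W_n H^n_c(X_K)(j)` (all `n` and `j`) are in the tensor
   category of the single pure motive `h U_i` over `K`.
2. For each `K` and each André motive `N` over `K` there is `i₀` such that `N` is in `⟨h U_i⟩` for all
   `i ≥ i₀`.
3. Let `P` be a property of pure polarised motives over `K` which is inherited in the following sense: if `N`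
   and `N'` are pure and `N'` is in `⟨N⟩` then `P N` implies `P N'`. Then `P` is true for **all** pure polarised
   motives over `K` if and only if it is true for **infinitely many** of the motives `h U_i`. (So it is true
   for all of them or only for finitely many.)

For the algebraic Sato-Tate conjecture (question Q1) let `P N` be the statement that there is a reductive
algebraic group `AST(N) ⊂ GL(ω(N))` over `ℚ` with `G_{1,ℓ,K}(N) = AST(N)_{ℚ_ℓ}`, for all primes `ℓ`, or for one
given prime `ℓ` (both readings of the question). It is inherited: let `N` be pure of weight `w`. If `w ≠ 0` then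
`G_{ℓ,K}(N)` contains the homotheties (relations between the eigenvalues of a Frobenius element have degree
zero) and so it is the product of the homotheties and `G_{1,ℓ,K}(N)`; if `w = 0` it is `G_{1,ℓ,K}(N)`. So `AST(N)`
gives a `ℚ`-form `A(N)` of `G_{ℓ,K}(N)`. If `N'` is in `⟨N⟩`, the image `A(N')` of `A(N)` in `GL(ω(N'))` is a
`ℚ`-form of `G_{ℓ,K}(N')`, and the kernel of its character on the polarisation of `N'` is `AST(N')`. **So the
algebraic Sato-Tate conjecture is true for all pure polarised motives over `K` if and only if it is true for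
infinitely many of the single motives `h U_i` of weight one.**

The conjecture is not known to be inherited by direct sums and tensor products, so a reduction to all members of
a family of varieties that generate the motives would not be sufficient. Fields `k` of positive transcendence
degree are not treated. The facts about André motives which are used are listed in `IsMotives`. The sequence is
constructed in the way of `Pool.Agent.Helper53.OS.Seq` (helper53, MP_57341d_ag OneSequence, on periods; there the
motives `h U` are not pure), with modules of helper10 and helper13.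
-/

set_option autoImplicit false

open CategoryTheory AlgebraicGeometry Pool.Agent.Y116.UV Pool.Agent.Z125.UN Pool.Agent.Q193.LT
  Pool.Agent.Helper3.GU Pool.Agent.Helper13.RM Pool.Agent.Helper10.PC Pool.Agent.Helper53.OS

universe v u

namespace Pool.Agent.Results.MP_92d903_ag.OneSequence

/-- The properties of the category of André motives over `K` that are used; see the explanations above.

* `serre`: `⟨N⟩` is closed under subobjects, quotients and (split) extensions;
* `half`: isomorphisms, `H n j ∅ = 0`, and the exactness of `H n j U → H n j X → H n j Z` for a closed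
  subscheme `Z` of `X` and its complement `U`;
* `dominant`: the rule for dominant morphisms (`Dominates U V`: the scheme `U` is separated, of finite type,
  smooth and integral, and has a dominant morphism to `V`): for `Fine` schemes `V` the map
  `W_n H^n(V_K) → W_n H^n(U_K)` is injective, and `H n j V` is a twist of the dual of some `W_m H^m(V_K)` by
  Poincaré duality;
* `generated`: the motives `H n j Y` of the smooth projective schemes over `ℚ` generate;
* `pure`: the motives `h U` are pure and polarised (of weight one). -/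
structure IsMotives {𝓜 : Type u} [Category.{v} 𝓜] [Abelian 𝓜] (Fine : Sch ℚ → Prop)
    (H : ℕ → ℤ → Sch ℚ → 𝓜) (h : Sch ℚ → 𝓜) (Gen : 𝓜 → 𝓜 → Prop) (Pure : 𝓜 → Prop) : Prop where
  serre : ∀ N, IsSerre (Gen N)
  half : ∀ n j, IsHalf (H n j)
  dominant : ∀ V : Sch ℚ, Fine V → ∀ U : Sch ℚ, Dominates U V → ∀ n j, Gen (h U) (H n j V)
  generated : ∀ S : 𝓜 → Prop, IsSerre S → (∀ Y : Sch ℚ, SmoothProj Y → ∀ n j, S (H n j Y)) →
    ∀ N, S N
  pure : ∀ U : Sch ℚ, FT True U → Smooth U.hom → IsIntegral U.left → Pure (h U)

/-- **The algebraic Sato-Tate conjecture and one sequence of pure motives of weight one.** See the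
explanations above. -/
theorem result {Fine : Sch ℚ → Prop} (hF : HasFine Fine) :
    ∃ M : ℕ → Σ m : ℕ, Matroid (Fin 4 ⊕ Fin m), (∀ i, SmoothMod ℚ ⊤ (M i).2) ∧
      (∀ X : Sch ℚ, FT True X → ∃ i₀, ∀ i, i₀ ≤ i →
        ∀ {𝓜 : Type u} [Category.{v} 𝓜] [Abelian 𝓜] {H : ℕ → ℤ → Sch ℚ → 𝓜} {h : Sch ℚ → 𝓜}
          {Gen : 𝓜 → 𝓜 → Prop} {Pure : 𝓜 → Prop}, IsMotives Fine H h Gen Pure →
          ∀ n j, Gen (h (modS ℚ (M i).2)) (H n j X)) ∧
      ∀ {𝓜 : Type u} [Category.{v} 𝓜] [Abelian 𝓜] {H : ℕ → ℤ → Sch ℚ → 𝓜} {h : Sch ℚ → 𝓜}
        {Gen : 𝓜 → 𝓜 → Prop} {Pure : 𝓜 → Prop}, IsMotives Fine H h Gen Pure →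
        (∀ N : 𝓜, ∃ i₀, ∀ i, i₀ ≤ i → Gen (h (modS ℚ (M i).2)) N) ∧
        ∀ {P : 𝓜 → Prop}, (∀ N N' : 𝓜, Pure N → Pure N' → Gen N N' → P N → P N') →
          ((∀ N, Pure N → P N) ↔ {i | P (h (modS ℚ (M i).2))}.Infinite) := by
  obtain ⟨M, hM, -, hs⟩ := exists_seq.{v, u} (presents_frac frac_rat) hF
  have hpure : ∀ i, ∀ {𝓜 : Type u} [Category.{v} 𝓜] [Abelian 𝓜] {H : ℕ → ℤ → Sch ℚ → 𝓜}
      {h : Sch ℚ → 𝓜} {Gen : 𝓜 → 𝓜 → Prop} {Pure : 𝓜 → Prop}, IsMotives Fine H h Gen Pure →
      Pure (h (modS ℚ (M i).2)) := fun i {𝓜} _ _ {H h Gen Pure} hT =>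
    hT.pure _ (ft_modT _) (smooth_aff_iff.2 (hM i).smooth)
      ((affine_isIntegral_iff _).mpr (hM i).domain)
  have key : ∀ X : Sch ℚ, FT True X → ∃ i₀, ∀ i, i₀ ≤ i →
        ∀ {𝓜 : Type u} [Category.{v} 𝓜] [Abelian 𝓜] {H : ℕ → ℤ → Sch ℚ → 𝓜} {h : Sch ℚ → 𝓜}
          {Gen : 𝓜 → 𝓜 → Prop} {Pure : 𝓜 → Prop}, IsMotives Fine H h Gen Pure →
          ∀ n j, Gen (h (modS ℚ (M i).2)) (H n j X) := by
    intro X hX
    obtain ⟨i₀, hi⟩ := hs X hX
    refine ⟨i₀, fun i hi' {𝓜} _ _ {H h Gen Pure} hT n j => ?_⟩
    exact hi i hi' (H := fun a : ℕ × ℤ => H a.1 a.2) (T := fun U => Gen (h U))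
      ⟨fun U => hT.serre (h U), fun a => hT.half a.1 a.2,
        fun V hV U hU a => hT.dominant V hV U hU a.1 a.2⟩ (n, j)
  refine ⟨M, hM, key, fun {𝓜} _ _ {H h Gen Pure} hT => ?_⟩
  have hall : ∀ N : 𝓜, ∃ i₀, ∀ i, i₀ ≤ i → Gen (h (modS ℚ (M i).2)) N := by
    refine hT.generated _ ⟨fun N hN => ⟨0, fun i _ => (hT.serre _).zero N hN⟩, ?_⟩ fun Y hY n j => ?_
    · rintro X Y Z f g w he ⟨a, ha⟩ ⟨b, hb⟩
      exact ⟨max a b, fun i hi => (hT.serre _).mid f g w he (ha i (le_trans (le_max_left a b) hi))
        (hb i (le_trans (le_max_right a b) hi))⟩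
    · obtain ⟨i₀, hi⟩ := key Y hY.ft
      exact ⟨i₀, fun i hi' => hi i hi' hT n j⟩
  refine ⟨hall, fun {P} hP => ⟨fun h1 => ?_, fun h1 N hN => ?_⟩⟩
  · rw [Set.eq_univ_of_forall (s := {i | P (h (modS ℚ (M i).2))}) fun i => h1 _ (hpure i hT)]
    exact Set.infinite_univ
  · obtain ⟨i₀, hi⟩ := hall N
    obtain ⟨i, hi1, hi2⟩ := h1.exists_gt i₀
    exact hP _ _ (hpure i hT) hN (hi i hi2.le) hi1

end Pool.Agent.Results.MP_92d903_ag.OneSequence
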